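import Pool.Agent.helper75.Pel.Final

/-!
# MP_6c92e3_an: spaces at polylogarithmic distance from Euclidean

For all `ρ` and all `δ > 0` there is `K` such that every finite-dimensional real normed space `E` whose
Banach-Mazur distance from the Euclidean space is at least `K (1 + log dim E) ^ K` has a subspace `F` with a
`(1 + δ)`-unconditional basis (in particular with basis constant at most `1 + δ`) and with distance at
least `ρ` from the Euclidean space.
-/

set_option autoImplicit false

namespace Pool.Agent.Results.MP_6c92e3_an.PolylogDistance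

/-- The Banach-Mazur distance from `E` to the Euclidean space of the same dimension is at least
`D`. -/
def DistGe (E : Type) [NormedAddCommGroup E] [NormedSpace ℝ E] (D : ℝ) : Prop :=
  ∀ T : E ≃L[ℝ] EuclideanSpace ℝ (Fin (Module.finrank ℝ E)),
    D ≤ ‖(T : E →L[ℝ] EuclideanSpace ℝ (Fin (Module.finrank ℝ E)))‖ *
      ‖(T.symm : EuclideanSpace ℝ (Fin (Module.finrank ℝ E)) →L[ℝ] E)‖

/-- `F` has a `C`-unconditional basis whose partial-sum projections have norm at most `C`. -/
def HasUncondBasis (F : Type) [NormedAddCommGroup F] [NormedSpace ℝ F] (C : ℝ) : Prop :=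
  ∃ b : Module.Basis (Fin (Module.finrank ℝ F)) ℝ F,
    (∀ a c : Fin (Module.finrank ℝ F) → ℝ, (∀ j, |a j| ≤ |c j|) →
      ‖∑ j, a j • b j‖ ≤ C * ‖∑ j, c j • b j‖) ∧
    ∀ (k : ℕ) (x : F),
      ‖∑ i ∈ Finset.univ.filter (fun i : Fin (Module.finrank ℝ F) => (i : ℕ) < k),
        b.repr x i • b i‖ ≤ C * ‖x‖

theorem result (ρ δ : ℝ) (hδ : 0 < δ) :
    ∃ K : ℕ, ∀ (E : Type) [NormedAddCommGroup E] [NormedSpace ℝ E] [FiniteDimensional ℝ E],
      DistGe E (K * (1 + Real.log (Module.finrank ℝ E)) ^ K) →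
      ∃ F : Submodule ℝ E, HasUncondBasis F (1 + δ) ∧ DistGe F ρ := by
  obtain ⟨K, hK⟩ := Pool.Agent.helper75.Pel.main.{0} ρ δ hδ
  refine ⟨K, fun E _ _ _ hE => ?_⟩
  obtain ⟨F, ⟨b, hb⟩, hF⟩ := hK E hE
  refine ⟨F, ⟨b, hb, fun k x => ?_⟩, hF⟩
  have h := hb (fun i : Fin (Module.finrank ℝ F) => if (i : ℕ) < k then b.repr x i else 0)
    (fun i => b.repr x i) (fun j => by
    split_ifs
    · exact le_rfl
    · rw [abs_zero]
      exact abs_nonneg _)
  rw [b.sum_repr] at h
  have e : ∑ i ∈ Finset.univ.filter (fun i : Fin (Module.finrank ℝ F) => (i : ℕ) < k),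
      b.repr x i • b i = ∑ i : Fin (Module.finrank ℝ F),
        (if (i : ℕ) < k then b.repr x i else 0) • b i := by
    rw [Finset.sum_filter]
    refine Finset.sum_congr rfl fun i _ => ?_
    split_ifs
    · rfl
    · rw [zero_smul]
  rw [e]
  exact h

end Pool.Agent.Results.MP_6c92e3_an.PolylogDistance
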