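import Pool.Agent.PEL.FinA

/-!
# MP_6c92e3_an: negative answer to Pelczynski's question, uniform form

For every `C ≥ 1` there is `D` such that for every `L` there is a finite-dimensional real normed space `E` whose
Banach-Mazur distance from the Euclidean space is at least `L`, all of whose subspaces with basis constant at most `C` are at
Banach-Mazur distance at most `D` from the Euclidean space of the same dimension.
-/

set_option autoImplicit false

namespace Pool.Agent.Results.MP_6c92e3_an.UniformNegative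

/-- The Banach-Mazur distance from `E` to the Euclidean space of the same dimension is at least
`L`. -/
def DistGe (E : Type) [NormedAddCommGroup E] [NormedSpace ℝ E] (L : ℝ) : Prop :=
  ∀ T : E ≃L[ℝ] EuclideanSpace ℝ (Fin (Module.finrank ℝ E)),
    L ≤ ‖(T : E →L[ℝ] EuclideanSpace ℝ (Fin (Module.finrank ℝ E)))‖ *
      ‖(T.symm : EuclideanSpace ℝ (Fin (Module.finrank ℝ E)) →L[ℝ] E)‖

/-- The Banach-Mazur distance from `E` to the Euclidean space of the same dimension is at most
`D` (attained by an isomorphism). -/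
def DistLe (E : Type) [NormedAddCommGroup E] [NormedSpace ℝ E] (D : ℝ) : Prop :=
  ∃ T : E ≃L[ℝ] EuclideanSpace ℝ (Fin (Module.finrank ℝ E)),
    ‖(T : E →L[ℝ] EuclideanSpace ℝ (Fin (Module.finrank ℝ E)))‖ *
      ‖(T.symm : EuclideanSpace ℝ (Fin (Module.finrank ℝ E)) →L[ℝ] E)‖ ≤ D

/-- `F` has a basis whose partial-sum projections have norm at most `C`. -/
def BasisLe (F : Type) [NormedAddCommGroup F] [NormedSpace ℝ F] (C : ℝ) : Prop :=
  ∃ b : Module.Basis (Fin (Module.finrank ℝ F)) ℝ F, ∀ (k : ℕ) (x : F),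
    ‖∑ i ∈ Finset.univ.filter (fun i : Fin (Module.finrank ℝ F) => (i : ℕ) < k),
      b.repr x i • b i‖ ≤ C * ‖x‖

theorem result (C : ℝ) (hC : 1 ≤ C) :
    ∃ D : ℝ, ∀ L : ℝ, ∃ (E : Type) (_ : NormedAddCommGroup E) (_ : NormedSpace ℝ E),
      FiniteDimensional ℝ E ∧ DistGe E L ∧
        ∀ F : Submodule ℝ E, BasisLe F C → DistLe F D := by
  refine ⟨Pool.Agent.PEL.DD C, fun L => ?_⟩
  obtain ⟨X, hX1, hX2⟩ := Pool.Agent.PEL.main C hC L
  exact ⟨Pool.Agent.PEL.ESp X, inferInstance, inferInstance, inferInstance, hX1,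
    fun F hF => hX2 F hF⟩

end Pool.Agent.Results.MP_6c92e3_an.UniformNegative
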